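import Pool.Agent.W662.CB.Stmts

/-! Project CB: transport of boxes by unitaries. -/

set_option autoImplicit false
set_option linter.unusedSectionVars false

open MeasureTheory Filter Topology Complex
open scoped InnerProductSpace ENNReal

namespace Pool.Agent.W672.CB

open Pool.Agent.W662.CB

section

variable {K L : Type} [NormedAddCommGroup K] [InnerProductSpace ℂ K] [CompleteSpace K]
  [NormedAddCommGroup L] [InnerProductSpace ℂ L] [CompleteSpace L]

/-- conjugation by a unitary -/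
noncomputable def cj (Φ : L ≃ₗᵢ[ℂ] K) (A : K →L[ℂ] K) : L →L[ℂ] L :=
  (Φ.symm.toContinuousLinearEquiv : K →L[ℂ] L) ∘L (A ∘L (Φ.toContinuousLinearEquiv : L →L[ℂ] K))

theorem cj_apply (Φ : L ≃ₗᵢ[ℂ] K) (A : K →L[ℂ] K) (f : L) : cj Φ A f = Φ.symm (A (Φ f)) := rfl

theorem Phi_cj (Φ : L ≃ₗᵢ[ℂ] K) (A : K →L[ℂ] K) (f : L) : Φ (cj Φ A f) = A (Φ f) := by
  rw [cj_apply, LinearIsometryEquiv.apply_symm_apply]

theorem cj_symm (Φ : L ≃ₗᵢ[ℂ] K) (A : K →L[ℂ] K) (f : K) : cj Φ A (Φ.symm f) = Φ.symm (A f) := by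
  rw [cj_apply, LinearIsometryEquiv.apply_symm_apply]

theorem cj_mul (Φ : L ≃ₗᵢ[ℂ] K) (A B : K →L[ℂ] K) : cj Φ (A * B) = cj Φ A * cj Φ B := by
  ext f
  rw [mul_apply_eq_comp, cj_apply, cj_apply, Phi_cj]
  rfl

theorem cj_star (Φ : L ≃ₗᵢ[ℂ] K) (A : K →L[ℂ] K) : star (cj Φ A) = cj Φ (star A) := by
  rw [ContinuousLinearMap.star_eq_adjoint, ContinuousLinearMap.star_eq_adjoint]
  symm
  rw [ContinuousLinearMap.eq_adjoint_iff]
  intro x y
  rw [← Φ.inner_map_map, Phi_cj, ← Φ.inner_map_map x, Phi_cj,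
    ContinuousLinearMap.adjoint_inner_left]

theorem cj_norm (Φ : L ≃ₗᵢ[ℂ] K) (A : K →L[ℂ] K) : ‖cj Φ A‖ ≤ ‖A‖ := by
  refine ContinuousLinearMap.opNorm_le_bound _ (norm_nonneg _) fun f => ?_
  rw [cj_apply, LinearIsometryEquiv.norm_map]
  refine (A.le_opNorm _).trans (le_of_eq ?_)
  rw [LinearIsometryEquiv.norm_map]

theorem cj_sub (Φ : L ≃ₗᵢ[ℂ] K) (A B : K →L[ℂ] K) : cj Φ (A - B) = cj Φ A - cj Φ B := by
  ext f
  rw [sub_apply, cj_apply, cj_apply, cj_apply, sub_apply, map_sub]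

end

theorem e8 : S_E8 := by
  intro H K L _ _ _ _ _ _ _ _ _ U κ V J E T δ hB κ' V' Φ hκ hV
  let J' : H →L[ℂ] L := (Φ.symm.toContinuousLinearEquiv : K →L[ℂ] L) ∘L J
  let E' : ℂ → L →L[ℂ] L := fun z => cj Φ (E z)
  have hJ' : ∀ v, J' v = Φ.symm (J v) := fun v => rfl
  have hE' : ∀ z, E' z = cj Φ (E z) := fun z => rfl
  have hκ' : ∀ y, κ' y = cj Φ (κ y) := by
    intro y
    ext f
    apply Φ.injective
    rw [hκ, Phi_cj]
  have hV' : ∀ t, V' t = cj Φ (V t) := by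
    intro t
    ext f
    apply Φ.injective
    rw [hV, Phi_cj]
  have hadj : ∀ f : L, ContinuousLinearMap.adjoint J' f = ContinuousLinearMap.adjoint J (Φ f) := by
    intro f
    apply ext_inner_right ℂ
    intro v
    rw [ContinuousLinearMap.adjoint_inner_left, ContinuousLinearMap.adjoint_inner_left, hJ',
      ← Φ.inner_map_map, LinearIsometryEquiv.apply_symm_apply]
  refine ⟨J', E', fun z f => Phi_cj Φ (E z) f, ?_⟩
  constructor
  · rw [hV', hB.V_zero]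
    ext f
    rw [cj_apply, one_apply_eq_self, LinearIsometryEquiv.symm_apply_apply]
    rfl
  · intro s t
    rw [hV', hV', hV', hB.V_add, cj_mul]
  · intro t
    rw [hV', hV', cj_star, hB.V_star]
  · intro z w
    rw [hE', hE', hE', hB.E_add, cj_mul]
  · intro z
    rw [hE', hE', cj_star, hB.E_star]
  · exact (differentiable_const _).clm_comp (hB.E_diff.clm_comp (differentiable_const _))
  · intro t z
    rw [hV', hE', ← cj_mul, ← cj_mul, hB.V_E]
  · intro y z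
    rw [hκ', hE', ← cj_mul, ← cj_mul, hB.κ_E]
  · intro v
    rw [hadj, hJ', LinearIsometryEquiv.apply_symm_apply, hB.J_iso]
  · intro v
    rw [hE', hJ', cj_symm, hB.E_J]
  · intro y v
    rw [hκ', hJ', hJ', cj_symm, hB.κ_J]
  · intro t v
    rw [hV', hJ', hE', hJ', cj_symm, cj_symm, hB.V_J]
  · intro m v hm
    rw [hadj, hE', hJ', Phi_cj, LinearIsometryEquiv.apply_symm_apply]
    exact hB.orth m v hm
  · intro u
    have h1 := (hB.compl (Φ u)).mapL (Φ.symm.toContinuousLinearEquiv : K →L[ℂ] L)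
    have h2 : ∀ m : ℤ, E' (((m : ℝ) * T : ℝ) : ℂ) (J' (ContinuousLinearMap.adjoint J'
        (E' ((-((m : ℝ) * T) : ℝ) : ℂ) u))) = Φ.symm (E (((m : ℝ) * T : ℝ) : ℂ)
        (J (ContinuousLinearMap.adjoint J (E ((-((m : ℝ) * T) : ℝ) : ℂ) (Φ u))))) := by
      intro m
      rw [hadj, hE', hE', hJ', Phi_cj, cj_symm]
    simp_rw [h2]
    exact h1
  · exact (by rw [hE', hE', ← cj_sub]; exact (cj_norm Φ _).trans hB.nE1)
  · exact (by rw [hE', hE', ← cj_sub]; exact (cj_norm Φ _).trans hB.nE2)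
  · exact (by rw [hE', hE', ← cj_sub]; exact (cj_norm Φ _).trans hB.nE3)
  · exact (by rw [hE', hE', ← cj_sub]; exact (cj_norm Φ _).trans hB.nE4)
  · exact hB.pos
  · exact hB.δ_nonneg
  · exact hB.δ_le

end Pool.Agent.W672.CB
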