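import Pool.Agent.W672.CB.Main

set_option autoImplicit false

open Filter Topology Set

namespace Pool.Agent.W672.CB

open Pool.Agent.H538R3.CB

/-- Indicator of a finite set. -/
def ind (s : Finset ℕ) : ℕ → Bool := fun j => decide (j ∈ s)

lemma res_ind {s : Finset ℕ} {i : ℕ} (hs : s ∈ (Finset.range i).powerset) :
    res (ind s) i = s := by
  ext j
  rw [mem_res]
  simp only [ind, decide_eq_true_eq]
  constructor
  · exact fun h => h.2
  · intro hj
    have := Finset.mem_powerset.1 hs hj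
    simp only [Finset.mem_range] at this
    exact ⟨this, hj⟩

lemma powerset_mono {s : Finset ℕ} {i j : ℕ} (hs : s ∈ (Finset.range i).powerset) (hij : i ≤ j) :
    s ∈ (Finset.range j).powerset := by
  rw [Finset.mem_powerset] at hs ⊢
  exact hs.trans (Finset.range_mono hij)

lemma insert_powerset {s : Finset ℕ} {i : ℕ} (hs : s ∈ (Finset.range i).powerset) :
    insert i s ∈ (Finset.range (i+1)).powerset := by
  rw [Finset.mem_powerset] at hs ⊢
  rw [Finset.range_add_one]
  exact Finset.insert_subset_insert _ hs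

lemma not_mem_of_powerset {s : Finset ℕ} {i : ℕ} (hs : s ∈ (Finset.range i).powerset) :
    i ∉ s := by
  intro h
  have := Finset.mem_powerset.1 hs h
  simp at this

lemma cb_transfer {Y Z : Type*} [TopologicalSpace Y] [TopologicalSpace Z] (e : Y ≃ₜ Z)
    (hZ : ∀ C : Set Z, IsClosed C → BaireSpace C) (C : Set Y) (hC : IsClosed C) :
    BaireSpace C := by
  have h1 : IsClosed (e.symm ⁻¹' C) := hC.preimage e.symm.continuous
  have := hZ _ h1
  have e2 : (e.symm ⁻¹' C) ≃ₜ C := e.symm.subtype (fun x => Iff.rfl)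
  exact e2.baireSpace

section

variable {X : Type*} [MetricSpace X] {ρ W : ℕ → Finset ℕ → Set X}

open Classical in
/-- The code of a point with respect to a scheme. -/
noncomputable def code (ρ : ℕ → Finset ℕ → Set X) (x : X) : ℕ → Bool :=
  fun j => decide (∃ i, ∃ t ∈ (Finset.range i).powerset, j < i ∧ j ∈ t ∧ x ∈ ρ i t)

lemma code_res (h : Sch ρ W) {x : X} {i : ℕ} {t : Finset ℕ}
    (ht : t ∈ (Finset.range i).powerset) (hx : x ∈ ρ i t) : res (code ρ x) i = t := by
  rw [← res_ind ht, res_eq_iff]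
  intro j hj
  have key : code ρ x j = true ↔ ind t j = true := by
    simp only [code, ind, decide_eq_true_eq]
    constructor
    · rintro ⟨i', t', ht', hj', hjt', hx'⟩
      have h1 := h.anti (ind t) (min_le_left i i')
      have h2 := h.anti (ind t') (min_le_right i i')
      simp only at h1 h2
      rw [res_ind ht] at h1
      rw [res_ind ht'] at h2
      have h3 := h.disj _ (h1 hx) (h2 hx')
      have h4 := res_eq_iff.1 h3 j (lt_min hj hj')
      simp only [ind] at h4
      simpa [hjt'] using h4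
    · intro hjt
      exact ⟨i, t, ht, hj, hjt, hx⟩
  cases h1 : code ρ x j <;> cases h2 : ind t j <;> simp_all

lemma uniq (h : Sch ρ W) {a : ℕ → Bool} (ha : {m | a m = true}.Infinite) {x y : X}
    (hx : ∀ i, x ∈ ρ i (res a i)) (hy : ∀ i, y ∈ ρ i (res a i)) : x = y := by
  by_contra hne
  obtain ⟨i, hi1, hi2⟩ := Sch.small ha (dist_pos.2 hne)
  have := h.dia i _ (res_mem a i) x (h.inW hi1 (Nat.lt_succ_self i) (hx (i+1)))
    y (h.inW hi1 (Nat.lt_succ_self i) (hy (i+1)))
  linarith

/-- The relation of all tuples which do not realise the sign pattern `σ` infinitely often. -/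
def Rel (ρ : ℕ → Finset ℕ → Set X) (k : ℕ) (σ : Fin k → Bool) : Set (Fin k → X) :=
  {f | ¬ ∀ N, ∃ m, N ≤ m ∧ ∃ t : Fin k → Finset ℕ,
    (∀ l, t l ∈ (Finset.range (m+1)).powerset ∧ (m ∈ t l ↔ σ l = true)) ∧
    ∀ l, f l ∈ ρ (m+1) (t l)}

lemma rel_meagre (h : Sch ρ W)
    (hV : ∀ V : Set X, IsOpen V → V.Nonempty → ∃ i, ∃ s ∈ (Finset.range i).powerset, ρ i s ⊆ V)
    (k : ℕ) (σ : Fin k → Bool) : IsMeagre (Rel ρ k σ) := by
  classical
  have h1 : (Rel ρ k σ)ᶜ = ⋂ N : ℕ, {f | ∃ m, N ≤ m ∧ ∃ t : Fin k → Finset ℕ,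
    (∀ l, t l ∈ (Finset.range (m+1)).powerset ∧ (m ∈ t l ↔ σ l = true)) ∧
    ∀ l, f l ∈ ρ (m+1) (t l)} := by
    ext f
    simp only [Rel, mem_compl_iff, mem_iInter]
    constructor
    · intro hf
      have hf' : ¬ ¬ ∀ N, ∃ m, N ≤ m ∧ ∃ t : Fin k → Finset ℕ,
        (∀ l, t l ∈ (Finset.range (m+1)).powerset ∧ (m ∈ t l ↔ σ l = true)) ∧
        ∀ l, f l ∈ ρ (m+1) (t l) := hf
      exact not_not.1 hf'
    · intro hf hcon
      exact hcon hf
  rw [IsMeagre, h1, countable_iInter_mem]
  intro N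
  refine residual_of_dense_open ?_ ?_
  · rw [isOpen_iff_mem_nhds]
    rintro f ⟨m, hm, t, ht, hft⟩
    have : ∀ᶠ g in 𝓝 f, ∀ l, g l ∈ ρ (m+1) (t l) := by
      rw [eventually_all]
      intro l
      exact (continuous_apply l).continuousAt.eventually
        ((h.opn (m+1) (t l) (ht l).1).1.mem_nhds (hft l))
    filter_upwards [this] with g hg
    exact ⟨m, hm, t, ht, hg⟩
  · rw [dense_iff_inter_open]
    rintro U hU ⟨f0, hf0⟩
    obtain ⟨u, hu1, hu2⟩ := isOpen_pi_iff'.1 hU f0 hf0
    have hch : ∀ l, ∃ i, ∃ s ∈ (Finset.range i).powerset, ρ i s ⊆ u l := fun l =>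
      hV (u l) (hu1 l).1 ⟨_, (hu1 l).2⟩
    choose i s hs hsu using hch
    let m := max N (Finset.univ.sup i)
    have him : ∀ l, i l ≤ m := fun l =>
      (Finset.le_sup (f := i) (Finset.mem_univ l)).trans (le_max_right _ _)
    have hsm : ∀ l, s l ∈ (Finset.range m).powerset := fun l => powerset_mono (hs l) (him l)
    have hρm : ∀ l, ρ m (s l) ⊆ u l := by
      intro l
      have h2 := h.anti (ind (s l)) (him l)
      simp only at h2
      rw [res_ind (hs l), res_ind (hsm l)] at h2
      exact h2.trans (hsu l)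
    let t : Fin k → Finset ℕ := fun l => if σ l = true then insert m (s l) else s l
    have ht1 : ∀ l, t l ∈ (Finset.range (m+1)).powerset := by
      intro l
      by_cases hl : σ l = true
      · simp only [t, if_pos hl]; exact insert_powerset (hsm l)
      · simp only [t, if_neg hl]; exact powerset_mono (hsm l) (Nat.le_succ m)
    have ht2 : ∀ l, m ∈ t l ↔ σ l = true := by
      intro l
      by_cases hl : σ l = true
      · simp only [t, if_pos hl, hl]
        simp
      · simp only [t, if_neg hl, hl]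
        simpa using not_mem_of_powerset (hsm l)
    have ht3 : ∀ l, ρ (m+1) (t l) ⊆ ρ m (s l) := by
      intro l
      by_cases hl : σ l = true
      · simp only [t, if_pos hl]
        rw [h.stt m _ (hsm l)]
        exact subset_closure.trans (h.cl m _ (hsm l))
      · simp only [t, if_neg hl]
        rw [h.stf m _ (hsm l)]
        exact sdiff_subset
    have hne : ∀ l, ∃ y, y ∈ ρ (m+1) (t l) := fun l => (h.opn (m+1) (t l) (ht1 l)).2
    choose y hy using hne
    refine ⟨y, hu2 ?_, m, le_max_left _ _, t, fun l => ⟨ht1 l, ht2 l⟩, hy⟩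
    intro l _
    exact hρm l (ht3 l (hy l))

end

/-- If one nonempty Polish space without isolated points has the free set property for all
countable families of meagre relations, then there is a dense completely Baire independent
family. -/
theorem independent_of_free (X : Type*) [TopologicalSpace X] [PolishSpace X] [PerfectSpace X]
    [Nonempty X]
    (hX : ∀ (n : ℕ → ℕ) (R : ∀ k : ℕ, Set (Fin (n k) → X)), (∀ k, 2 ≤ n k) →
      (∀ k, IsMeagre (R k)) →
      ∃ A : Set X, Dense A ∧ (∀ C : Set A, IsClosed C → BaireSpace C) ∧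
      ∀ (k : ℕ) (f : Fin (n k) → X), Function.Injective f → (∀ i, f i ∈ A) → f ∉ R k) :
    ∃ A : Set (ℕ → Bool), Dense A ∧ (∀ C : Set A, IsClosed C → BaireSpace C) ∧
      ∀ F : Finset (ℕ → Bool), (∀ a ∈ F, a ∈ A) → ∀ σ : (ℕ → Bool) → Bool,
        {m | ∀ a ∈ F, a m = σ a}.Infinite := by
  classical
  let _ := TopologicalSpace.upgradeIsCompletelyMetrizable X
  obtain ⟨bs, hbc, hbe, hbb⟩ := TopologicalSpace.exists_countable_basis X
  have hbne : bs.Nonempty := by
    obtain ⟨x⟩ := (inferInstance : Nonempty X)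
    obtain ⟨v, hv, _⟩ := hbb.exists_subset_of_mem_open (mem_univ x) isOpen_univ
    exact ⟨v, hv⟩
  obtain ⟨B, hB⟩ := hbc.exists_eq_range hbne
  have hBo : ∀ i, IsOpen (B i) := fun i => hbb.isOpen (hB ▸ mem_range_self i)
  obtain ⟨ρ, W, h, hWB, _⟩ := exists_scheme X (fun _ => 0) (fun _ _ => univ)
    (fun _ _ => isOpen_univ) (TopologicalSpace.denseSeq X) (TopologicalSpace.denseRange_denseSeq X)
    (fun _ _ _ _ => mem_univ _) B hBo
  have hV : ∀ V : Set X, IsOpen V → V.Nonempty →
      ∃ i, ∃ s ∈ (Finset.range i).powerset, ρ i s ⊆ V := by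
    rintro V hV ⟨x, hx⟩
    obtain ⟨v, hv, hxv, hvV⟩ := hbb.exists_subset_of_mem_open hx hV
    obtain ⟨i, rfl⟩ : ∃ i, B i = v := by
      have : v ∈ range B := hB ▸ hv
      exact this
    obtain ⟨s, hs, hne⟩ := h.dense_union i (B i) (hBo i) ⟨x, hxv⟩
    refine ⟨i+1, insert i s, insert_powerset hs, ?_⟩
    rw [h.stt i s hs]
    exact (hWB i s hs hne).trans hvV
  obtain ⟨e, he⟩ := exists_surjective_nat (Σ k : ℕ, (Fin (k+2) → Bool))
  obtain ⟨A, hAd, hAB, hAf⟩ := hX (fun j => (e j).1 + 2) (fun j => Rel ρ ((e j).1 + 2) (e j).2)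
    (fun j => Nat.le_add_left _ _) (fun j => rel_meagre h hV _ _)
  have hfree : ∀ p : (Σ k : ℕ, (Fin (k+2) → Bool)), ∀ f : Fin (p.1 + 2) → X,
      Function.Injective f → (∀ i, f i ∈ A) → f ∉ Rel ρ (p.1 + 2) p.2 := by
    rw [he.forall]
    exact hAf
  -- from a tuple to the codes
  have htup : ∀ (k : ℕ) (σ : Fin (k+2) → Bool) (f : Fin (k+2) → X), Function.Injective f →
      (∀ i, f i ∈ A) → ∀ N, ∃ m, N ≤ m ∧ (∀ l, code ρ (f l) m = σ l) ∧
        ∀ l, f l ∈ ρ (m+1) (res (code ρ (f l)) (m+1)) := by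
    intro k σ f hf hfA N
    have h1 : ¬ ¬ ∀ N, ∃ m, N ≤ m ∧ ∃ t : Fin (k+2) → Finset ℕ,
      (∀ l, t l ∈ (Finset.range (m+1)).powerset ∧ (m ∈ t l ↔ σ l = true)) ∧
      ∀ l, f l ∈ ρ (m+1) (t l) := hfree ⟨k, σ⟩ f hf hfA
    obtain ⟨m, hm, t, ht, hft⟩ := (not_not.1 h1) N
    refine ⟨m, hm, ?_, ?_⟩
    · intro l
      have h2 := code_res h (ht l).1 (hft l)
      have h3 : code ρ (f l) m = true ↔ σ l = true := by
        rw [← (ht l).2, ← h2, mem_res]
        simp
      cases h4 : code ρ (f l) m <;> cases h5 : σ l <;> simp_all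
    · intro l
      rw [code_res h (ht l).1 (hft l)]
      exact hft l
  have hinfA : A.Infinite := by
    intro hfin
    have h1 : Dense (A \ A) := hAd.sdiff_finite hfin
    obtain ⟨x, hx⟩ := h1.nonempty
    exact hx.2 hx.1
  have hpair : ∀ x ∈ A, ∀ N, ∃ m, N ≤ m ∧ code ρ x m = true ∧
      x ∈ ρ (m+1) (res (code ρ x) (m+1)) := by
    intro x hx N
    obtain ⟨y, hy1, hy2⟩ := hinfA.exists_notMem_finset {x}
    have hxy : x ≠ y := fun hxy => hy2 (by simp [hxy])
    obtain ⟨m, hm, h1, h2⟩ := htup 0 (fun _ => true) ![x, y] (by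
      intro l l' hll
      fin_cases l <;> fin_cases l' <;> simp_all) (by
      intro l; fin_cases l <;> simp [hx, hy1]) N
    exact ⟨m, hm, h1 0, h2 0⟩
  have hinf : ∀ x ∈ A, {m | code ρ x m = true}.Infinite := by
    intro x hx
    rw [Set.infinite_iff_exists_gt]
    intro N
    obtain ⟨m, hm, h1, _⟩ := hpair x hx (N+1)
    exact ⟨m, h1, by omega⟩
  have hall : ∀ x ∈ A, ∀ i, x ∈ ρ i (res (code ρ x) i) := by
    intro x hx i
    obtain ⟨m, hm, _, h2⟩ := hpair x hx i
    exact h.anti (code ρ x) (show i ≤ m + 1 by omega) h2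
  let A' : Set (ℕ → Bool) := code ρ '' A
  have hch : ∀ a : A', ∃ x, x ∈ A ∧ code ρ x = a.1 := fun a => a.2
  choose φ hφA hφc using hch
  have hemb : IsEmbedding φ := by
    refine emb h A' ?_ φ ?_
    · rintro _ ⟨x, hx, rfl⟩
      exact hinf x hx
    · intro a i
      rw [← hφc a]
      exact hall _ (hφA a) i
  have hrange : range φ = A := by
    apply Subset.antisymm
    · rintro _ ⟨a, rfl⟩
      exact hφA a
    · intro x hx
      refine ⟨⟨code ρ x, mem_image_of_mem _ hx⟩, ?_⟩
      have hc := hφc ⟨code ρ x, mem_image_of_mem _ hx⟩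
      refine uniq h (hinf x hx) ?_ (hall x hx)
      intro i
      have := hall _ (hφA ⟨code ρ x, mem_image_of_mem _ hx⟩) i
      rw [hc] at this
      exact this
  let e1 : A' ≃ₜ A := hemb.toHomeomorph.trans (Homeomorph.setCongr hrange)
  refine ⟨A', ?_, cb_transfer e1 hAB, ?_⟩
  · intro c
    rw [mem_closure_iff_nhds]
    intro U hU
    obtain ⟨i, hi⟩ := mem_nhds_cantor.1 hU
    obtain ⟨x, hx1, hx2⟩ := hAd.inter_open_nonempty (ρ i (res c i)) (h.opn i _ (res_mem c i)).1
      (h.opn i _ (res_mem c i)).2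
    exact ⟨code ρ x, hi _ (code_res h (res_mem c i) hx1).symm, mem_image_of_mem _ hx2⟩
  · intro F hF σ
    have hinfA' : A'.Infinite := by
      intro hfin
      have : (range φ).Finite := by
        have : Finite A' := hfin
        exact finite_range φ
      rw [hrange] at this
      exact hinfA this
    obtain ⟨b1, hb1, _⟩ := hinfA'.exists_notMem_finset ∅
    obtain ⟨b2, hb2, hb12⟩ := hinfA'.exists_notMem_finset {b1}
    have hne : b1 ≠ b2 := fun h => hb12 (by simp [h])
    let F' := insert b1 (insert b2 F)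
    have hF' : ∀ a ∈ F', a ∈ A' := by
      intro a ha
      simp only [F', Finset.mem_insert] at ha
      rcases ha with rfl | rfl | ha
      · exact hb1
      · exact hb2
      · exact hF a ha
    have hcard : 2 ≤ F'.card := by
      have h1 : ({b1, b2} : Finset (ℕ → Bool)) ⊆ F' := by
        intro a ha
        simp only [Finset.mem_insert, Finset.mem_singleton] at ha
        simp only [F', Finset.mem_insert]
        tauto
      have h2 := Finset.card_le_card h1
      rw [Finset.card_pair hne] at h2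
      exact h2
    obtain ⟨k, hk⟩ := Nat.exists_eq_add_of_le hcard
    have hk' : F'.card = k + 2 := by omega
    let g := (F'.equivFinOfCardEq hk').symm
    have hg : ∀ l, (g l).1 ∈ A' := fun l => hF' _ (g l).2
    let f : Fin (k+2) → X := fun l => φ ⟨(g l).1, hg l⟩
    have hfc : ∀ l, code ρ (f l) = (g l).1 := fun l => hφc _
    have hfinj : Function.Injective f := by
      intro l l' hll
      apply g.injective
      apply Subtype.ext
      rw [← hfc l, ← hfc l', hll]
    have hfA : ∀ l, f l ∈ A := fun l => hφA _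
    rw [Set.infinite_iff_exists_gt]
    intro N
    obtain ⟨m, hm, h1, _⟩ := htup k (fun l => σ (g l).1) f hfinj hfA (N+1)
    refine ⟨m, ?_, by omega⟩
    intro a ha
    have haF' : a ∈ F' := by
      simp only [F', Finset.mem_insert]
      tauto
    obtain ⟨l, hl⟩ := g.surjective ⟨a, haF'⟩
    have h2 := h1 l
    rw [hfc l, hl] at h2
    exact h2

end Pool.Agent.W672.CB
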