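import Pool.Agent.W672.CB.Scheme

set_option autoImplicit false

open Filter Topology Set

namespace Pool.Agent.W672.CB

open Pool.Agent.H538R3.CB

namespace Sch

variable {X : Type*} [MetricSpace X] {ρ W : ℕ → Finset ℕ → Set X}

lemma mono (h : Sch ρ W) (a : ℕ → Bool) (i : ℕ) : ρ (i+1) (res a (i+1)) ⊆ ρ i (res a i) := by
  cases hi : a i
  · rw [res_succ_false hi, h.stf i _ (res_mem a i)]
    exact sdiff_subset
  · rw [res_succ_true hi, h.stt i _ (res_mem a i)]
    exact subset_closure.trans (h.cl i _ (res_mem a i))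

lemma anti (h : Sch ρ W) (a : ℕ → Bool) : Antitone (fun i => ρ i (res a i)) :=
  antitone_nat_of_succ_le (h.mono a)

lemma inW (h : Sch ρ W) {a : ℕ → Bool} {i j : ℕ} (hi : a i = true) (hij : i < j) :
    ρ j (res a j) ⊆ W i (res a i) := by
  have h1 := h.anti a (show i + 1 ≤ j from hij)
  simp only at h1
  rw [res_succ_true hi, h.stt i _ (res_mem a i)] at h1
  exact h1

lemma small {a : ℕ → Bool} (ha : {m | a m = true}.Infinite) {ε : ℝ} (hε : 0 < ε) :
    ∃ i, a i = true ∧ 2 / ((i:ℝ)+1) < ε := by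
  have ht : Tendsto (fun K : ℕ => 2 * (1 / ((K : ℝ) + 1))) atTop (𝓝 0) := by
    have := tendsto_one_div_add_atTop_nhds_zero_nat (𝕜 := ℝ)
    simpa using this.const_mul 2
  obtain ⟨N, hN⟩ := eventually_atTop.1 (ht.eventually (gt_mem_nhds hε))
  obtain ⟨i, hi1, hi2⟩ := ha.exists_gt N
  refine ⟨i, hi1, ?_⟩
  have := hN i hi2.le
  have h5 : (2 : ℝ) / ((i:ℝ)+1) = 2 * (1 / ((i:ℝ)+1)) := by ring
  rw [h5]; exact this

lemma exists_pt [CompleteSpace X] (h : Sch ρ W) {a : ℕ → Bool}
    (ha : {m | a m = true}.Infinite) : ∃ x, ∀ i, x ∈ ρ i (res a i) := by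
  have hne : ∀ i, ∃ x, x ∈ ρ i (res a i) := fun i => (h.opn i _ (res_mem a i)).2
  choose x hx using hne
  have hcau : CauchySeq x := by
    rw [Metric.cauchySeq_iff']
    intro ε hε
    obtain ⟨i, hi1, hi2⟩ := small ha hε
    refine ⟨i+1, fun m hm => ?_⟩
    refine lt_of_le_of_lt (h.dia i _ (res_mem a i) _ ?_ _ ?_) hi2
    · exact h.inW hi1 (by omega) (hx m)
    · exact h.inW hi1 (by omega) (hx (i+1))
  obtain ⟨y, hy⟩ := cauchySeq_tendsto_of_complete hcau
  refine ⟨y, fun i => ?_⟩
  obtain ⟨i', hi1, hi2⟩ := ha.exists_gt i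
  have h1 : y ∈ closure (W i' (res a i')) := by
    refine mem_closure_of_tendsto hy ?_
    filter_upwards [eventually_gt_atTop i'] with j hj
    exact h.inW hi1 hj (hx j)
  exact h.anti a hi2.le (h.cl i' _ (res_mem a i') h1)

lemma disj (h : Sch ρ W) {a b : ℕ → Bool} {x : X} : ∀ i, x ∈ ρ i (res a i) →
    x ∈ ρ i (res b i) → res a i = res b i := by
  intro i
  induction i with
  | zero => intro _ _; simp [res]
  | succ i ih =>
    intro h1 h2
    have h3 := ih (h.mono a i h1) (h.mono b i h2)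
    cases ha : a i <;> cases hb : b i
    · rw [res_succ_false ha, res_succ_false hb, h3]
    · exfalso
      rw [res_succ_false ha, h.stf i _ (res_mem a i)] at h1
      rw [res_succ_true hb, h.stt i _ (res_mem b i), ← h3] at h2
      exact h1.2 (subset_closure h2)
    · exfalso
      rw [res_succ_false hb, h.stf i _ (res_mem b i)] at h2
      rw [res_succ_true ha, h.stt i _ (res_mem a i), h3] at h1
      exact h2.2 (subset_closure h1)
    · rw [res_succ_true ha, res_succ_true hb, h3]

lemma dense_union (h : Sch ρ W) : ∀ i (V : Set X), IsOpen V → V.Nonempty →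
    ∃ s ∈ (Finset.range i).powerset, (V ∩ ρ i s).Nonempty := by
  intro i
  induction i with
  | zero =>
    intro V _ hne
    refine ⟨∅, by simp, ?_⟩
    rw [h.zero, inter_univ]; exact hne
  | succ i ih =>
    intro V hV hne
    obtain ⟨s, hs, hVs⟩ := ih V hV hne
    have hO : IsOpen (V ∩ ρ i s) := hV.inter (h.opn i s hs).1
    by_cases hc : (V ∩ ρ i s ∩ W i s).Nonempty
    · obtain ⟨x, hx1, hx2⟩ := hc
      refine ⟨insert i s, ?_, x, hx1.1, ?_⟩
      · rw [Finset.mem_powerset] at hs ⊢
        rw [Finset.range_add_one]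
        exact Finset.insert_subset_insert _ hs
      · rw [h.stt i s hs]; exact hx2
    · obtain ⟨x, hx⟩ := hVs
      refine ⟨s, ?_, x, hx.1, ?_⟩
      · rw [Finset.mem_powerset] at hs ⊢
        exact hs.trans (Finset.range_mono (Nat.le_succ i))
      · rw [h.stf i s hs]
        refine ⟨hx.2, fun hcl => hc ?_⟩
        exact mem_closure_iff.1 hcl _ hO hx

end Sch

lemma mem_nhds_cantor {a : ℕ → Bool} {U : Set (ℕ → Bool)} :
    U ∈ 𝓝 a ↔ ∃ i, ∀ b : ℕ → Bool, res a i = res b i → b ∈ U := by
  rw [(PiNat.isTopologicalBasis_cylinders (fun _ : ℕ => Bool)).mem_nhds_iff]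
  constructor
  · rintro ⟨t, ⟨x, m, rfl⟩, hat, htU⟩
    refine ⟨m, fun b hb => htU ?_⟩
    rw [PiNat.mem_cylinder_iff] at hat ⊢
    intro j hj
    rw [← hat j hj]
    exact ((res_eq_iff.1 hb) j hj).symm
  · rintro ⟨i, hi⟩
    refine ⟨PiNat.cylinder a i, ⟨a, i, rfl⟩, PiNat.self_mem_cylinder a i, ?_⟩
    intro b hb
    rw [PiNat.mem_cylinder_iff] at hb
    exact hi b (res_eq_iff.2 fun j hj => (hb j hj).symm)

lemma emb {X : Type*} [MetricSpace X] {ρ W : ℕ → Finset ℕ → Set X} (h : Sch ρ W)
    (A : Set (ℕ → Bool)) (hA : ∀ a ∈ A, {m | a m = true}.Infinite) (φ : A → X)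
    (hφ : ∀ a : A, ∀ i, φ a ∈ ρ i (res a.1 i)) : IsEmbedding φ := by
  refine ⟨?_, ?_⟩
  · rw [isInducing_iff_nhds]
    intro a
    refine le_antisymm ?_ ?_
    · rw [← Filter.tendsto_iff_comap]
      rw [Metric.tendsto_nhds]
      intro ε hε
      obtain ⟨i, hi1, hi2⟩ := Sch.small (hA a.1 a.2) hε
      rw [nhds_subtype_eq_comap]
      refine ⟨{b | res a.1 (i+1) = res b (i+1)}, mem_nhds_cantor.2 ⟨i+1, fun b hb => hb⟩, ?_⟩
      intro b hb
      have hb' : res a.1 (i+1) = res b.1 (i+1) := hb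
      refine lt_of_le_of_lt (h.dia i _ (res_mem a.1 i) _ ?_ _ ?_) hi2
      · have h1 := hφ b (i+1)
        rw [← hb', res_succ_true hi1, h.stt i _ (res_mem a.1 i)] at h1
        exact h1
      · exact h.inW hi1 (Nat.lt_succ_self i) (hφ a (i+1))
    · rw [nhds_subtype_eq_comap]
      rintro U ⟨V, hV, hVU⟩
      obtain ⟨i, hi⟩ := mem_nhds_cantor.1 hV
      refine ⟨ρ i (res a.1 i), (h.opn i _ (res_mem a.1 i)).1.mem_nhds (hφ a i), ?_⟩
      intro b hb
      apply hVU
      exact hi b.1 (h.disj i hb (hφ b i))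
  · intro a b hab
    apply Subtype.ext
    funext j
    have h1 := h.disj (a := a.1) (b := b.1) (j+1) (hφ a (j+1)) (by rw [hab]; exact hφ b (j+1))
    exact res_eq_iff.1 h1 j (Nat.lt_succ_self j)

/-- A dense completely Baire centered family gives free sets for every countable family of
meagre relations on every Polish space without isolated points. -/
theorem free_of_centered (A : Set (ℕ → Bool)) (hAd : Dense A)
    (hAB : ∀ C : Set A, IsClosed C → BaireSpace C)
    (hAc : ∀ F : Finset (ℕ → Bool), (∀ a ∈ F, a ∈ A) → {m | ∀ a ∈ F, a m = true}.Infinite)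
    (X : Type*) [TopologicalSpace X] [PolishSpace X] [PerfectSpace X] [Nonempty X]
    (n : ℕ → ℕ) (R : ∀ k : ℕ, Set (Fin (n k) → X)) (hR : ∀ k, IsMeagre (R k)) :
    ∃ A : Set X, Dense A ∧ (∀ C : Set A, IsClosed C → BaireSpace C) ∧
      ∀ (k : ℕ) (f : Fin (n k) → X), Function.Injective f → (∀ i, f i ∈ A) → f ∉ R k := by
  classical
  let _ := TopologicalSpace.upgradeIsCompletelyMetrizable X
  have hG := fun k => exists_open_dense_seq (hR k)
  choose G hGo hGd hGR using hG
  obtain ⟨d, hdd, hdG⟩ := exists_free_dense_seq X n G hGo hGd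
  obtain ⟨bs, hbc, hbe, hbb⟩ := TopologicalSpace.exists_countable_basis X
  have hbne : bs.Nonempty := by
    obtain ⟨x⟩ := (inferInstance : Nonempty X)
    obtain ⟨v, hv, _⟩ := hbb.exists_subset_of_mem_open (mem_univ x) isOpen_univ
    exact ⟨v, hv⟩
  obtain ⟨B, hB⟩ := hbc.exists_eq_range hbne
  have hBo : ∀ i, IsOpen (B i) := fun i => hbb.isOpen (hB ▸ mem_range_self i)
  obtain ⟨ρ, W, h, hWB, hfree⟩ := exists_scheme X n G hGo d hdd hdG B hBo
  have hinf : ∀ a ∈ A, {m | a m = true}.Infinite := by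
    intro a ha
    have := hAc {a} (by simpa using ha)
    simpa using this
  have hpt : ∀ a : A, ∃ x, ∀ i, x ∈ ρ i (res a.1 i) := fun a => h.exists_pt (hinf a.1 a.2)
  choose φ hφ using hpt
  have hemb := emb h A hinf φ hφ
  let e : A ≃ₜ range φ := hemb.toHomeomorph
  refine ⟨range φ, ?_, ?_, ?_⟩
  · rw [dense_iff_inter_open]
    rintro V hV ⟨x, hx⟩
    obtain ⟨v, hv, hxv, hvV⟩ := hbb.exists_subset_of_mem_open hx hV
    obtain ⟨i, rfl⟩ : ∃ i, B i = v := by
      have : v ∈ range B := hB ▸ hv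
      exact this
    obtain ⟨s, hs, hne⟩ := h.dense_union i (B i) (hBo i) ⟨x, hxv⟩
    have hsub := hWB i s hs hne
    -- the element of the Cantor space coding `insert i s`
    let c : ℕ → Bool := fun j => decide (j ∈ insert i s)
    obtain ⟨a, ha1, ha2⟩ := hAd.inter_nhds_nonempty
      (mem_nhds_cantor.2 ⟨i+1, fun b hb => hb⟩ : {b | res c (i+1) = res b (i+1)} ∈ 𝓝 c)
    have hc : res c (i+1) = insert i s := by
      ext j
      rw [mem_res]
      simp only [c, decide_eq_true_eq]
      constructor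
      · exact fun h => h.2
      · intro hj
        refine ⟨?_, hj⟩
        rcases Finset.mem_insert.1 hj with rfl | hj
        · omega
        · have := Finset.mem_powerset.1 hs hj
          simp only [Finset.mem_range] at this
          omega
    refine ⟨φ ⟨a, ha1⟩, hvV (hsub ?_), mem_range_self _⟩
    have h1 := hφ ⟨a, ha1⟩ (i+1)
    have h2 : res c (i+1) = res a (i+1) := ha2
    rw [← h2, hc, h.stt i s hs] at h1
    exact h1
  · intro C hC
    have h1 : IsClosed (e ⁻¹' C) := hC.preimage e.continuous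
    have := hAB _ h1
    have e2 : (e ⁻¹' C) ≃ₜ C := by
      refine (e.subtype ?_)
      intro x
      rfl
    exact e2.baireSpace
  · intro k f hf hfA hfR
    obtain ⟨i, hi⟩ := hGR k f hfR
    apply hi
    choose a ha using hfA
    have hainj : Function.Injective a := by
      intro l l' hll
      apply hf
      rw [← ha l, ← ha l', hll]
    have hainj' : ∀ l l', l ≠ l' → ∃ N, res (a l).1 N ≠ res (a l').1 N := by
      intro l l' hll
      by_contra hcon
      push Not at hcon
      apply hll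
      apply hainj
      apply Subtype.ext
      funext j
      exact res_eq_iff.1 (hcon (j+1)) j (Nat.lt_succ_self j)
    have hN : ∀ p : Fin (n k) × Fin (n k), ∃ N, p.1 ≠ p.2 →
        res (a p.1).1 N ≠ res (a p.2).1 N := by
      intro p
      by_cases hp : p.1 = p.2
      · exact ⟨0, fun h => absurd hp h⟩
      · obtain ⟨N, hN⟩ := hainj' p.1 p.2 hp
        exact ⟨N, fun _ => hN⟩
    choose N hN using hN
    have hI := hAc (Finset.univ.image (fun l => (a l).1)) (by
      intro b hb
      obtain ⟨l, _, rfl⟩ := Finset.mem_image.1 hb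
      exact (a l).2)
    obtain ⟨m, hm1, hm2⟩ := hI.exists_gt (max (max k i) (Finset.univ.sup N))
    have hm1' : ∀ l, (a l).1 m = true := fun l =>
      hm1 _ (Finset.mem_image.2 ⟨l, Finset.mem_univ _, rfl⟩)
    refine hfree m k ?_ i ?_ (fun l => res (a l).1 m) (fun l => res_mem _ _) ?_ f ?_
    · have := le_max_left k i
      have := le_max_left (max k i) (Finset.univ.sup N)
      omega
    · have := le_max_right k i
      have := le_max_left (max k i) (Finset.univ.sup N)
      omega
    · intro l l' hll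
      by_contra hne
      apply hN (l, l') hne
      have h1 : N (l, l') ≤ Finset.univ.sup N := Finset.le_sup (Finset.mem_univ _)
      have h2 := le_max_right (max k i) (Finset.univ.sup N)
      have h3 := res_eq_iff.1 hll
      exact res_eq_iff.2 fun j hj => h3 j (by omega)
    · intro l
      rw [← ha l]
      exact h.inW (hm1' l) (Nat.lt_succ_self m) (hφ (a l) (m+1))

end Pool.Agent.W672.CB
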