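import Pool.Agent.H538R3.CBTop

set_option autoImplicit false

open Filter Topology Set

namespace Pool.Agent.W672.CB

open Pool.Agent.H538R3.CB

/-- The set of elements of `a` below `i`. -/
def res (a : ℕ → Bool) (i : ℕ) : Finset ℕ := (Finset.range i).filter (fun j => a j = true)

lemma res_mem (a : ℕ → Bool) (i : ℕ) : res a i ∈ (Finset.range i).powerset := by
  rw [Finset.mem_powerset]; exact Finset.filter_subset _ _

lemma res_succ_true {a : ℕ → Bool} {i : ℕ} (h : a i = true) :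
    res a (i+1) = insert i (res a i) := by
  unfold res; rw [Finset.range_add_one, Finset.filter_insert, if_pos h]

lemma res_succ_false {a : ℕ → Bool} {i : ℕ} (h : a i = false) :
    res a (i+1) = res a i := by
  unfold res; rw [Finset.range_add_one, Finset.filter_insert, if_neg (by simp [h])]

lemma mem_res {a : ℕ → Bool} {i j : ℕ} : j ∈ res a i ↔ j < i ∧ a j = true := by
  simp [res]

lemma res_eq_iff {a b : ℕ → Bool} {i : ℕ} : res a i = res b i ↔ ∀ j < i, a j = b j := by
  constructor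
  · intro h j hj
    have := Finset.ext_iff.1 h j
    rw [mem_res, mem_res] at this
    cases ha : a j <;> cases hb : b j <;> simp_all
  · intro h
    ext j
    rw [mem_res, mem_res]
    constructor
    · rintro ⟨h1, h2⟩; exact ⟨h1, by rw [← h j h1]; exact h2⟩
    · rintro ⟨h1, h2⟩; exact ⟨h1, by rw [h j h1]; exact h2⟩

lemma exists_inj_choice (P : Finset (Finset ℕ)) (S : Finset ℕ → Set ℕ)
    (hS : ∀ s ∈ P, (S s).Infinite) :
    ∃ j : Finset ℕ → ℕ, (∀ s ∈ P, j s ∈ S s) ∧ Set.InjOn j (P : Set (Finset ℕ)) := by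
  classical
  induction P using Finset.induction_on with
  | empty => exact ⟨fun _ => 0, by simp, by simp⟩
  | insert s0 P hs0 ih =>
    obtain ⟨j, hj1, hj2⟩ := ih (fun s hs => hS s (Finset.mem_insert_of_mem hs))
    obtain ⟨m, hm1, hm2⟩ := (hS s0 (Finset.mem_insert_self _ _)).exists_notMem_finset (P.image j)
    refine ⟨Function.update j s0 m, ?_, ?_⟩
    · intro s hs
      by_cases h : s = s0
      · subst h; simpa using hm1
      · rw [Function.update_of_ne h]; exact hj1 s (by simpa [h] using hs)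
    · intro s hs t ht hst
      by_cases h : s = s0 <;> by_cases h' : t = s0
      · rw [h, h']
      · exfalso
        subst h
        rw [Function.update_self, Function.update_of_ne h'] at hst
        exact hm2 (Finset.mem_image.2 ⟨t, by simpa [h'] using ht, hst.symm⟩)
      · exfalso
        subst h'
        rw [Function.update_self, Function.update_of_ne h] at hst
        exact hm2 (Finset.mem_image.2 ⟨s, by simpa [h] using hs, hst⟩)
      · rw [Function.update_of_ne h, Function.update_of_ne h'] at hst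
        exact hj2 (by simpa [h] using hs) (by simpa [h'] using ht) hst

lemma infinite_idx {X : Type*} [TopologicalSpace X] [T1Space X] [PerfectSpace X] {d : ℕ → X}
    (hd : Dense (range d)) {O : Set X} (hO : IsOpen O) (hne : O.Nonempty) :
    {j | d j ∈ O}.Infinite := by
  intro hfin
  have h1 : Dense (range d \ (d '' {j | d j ∈ O})) := hd.sdiff_finite (hfin.image d)
  obtain ⟨x, hx1, ⟨j, rfl⟩, hx3⟩ := h1.inter_open_nonempty O hO hne
  exact hx3 ⟨j, hx1, rfl⟩

lemma step_exists {X : Type*} [MetricSpace X] [PerfectSpace X]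
    (n : ℕ → ℕ) (G : ∀ k : ℕ, ℕ → Set (Fin (n k) → X)) (hGo : ∀ k i, IsOpen (G k i))
    (d : ℕ → X) (hdd : Dense (range d)) (hd : ∀ k i (σ : Fin (n k) → ℕ), Function.Injective σ →
      (fun l => d (σ l)) ∈ G k i) (V : Set X) (hV : IsOpen V) (i : ℕ)
    (P : Finset (Finset ℕ)) (ρ : Finset ℕ → Set X)
    (hρ : ∀ s ∈ P, IsOpen (ρ s) ∧ (ρ s).Nonempty) :
    ∃ W : Finset ℕ → Set X, (∀ s ∈ P, IsOpen (W s) ∧ (W s).Nonempty ∧ closure (W s) ⊆ ρ s ∧
      (∀ x ∈ W s, ∀ y ∈ W s, dist x y ≤ 2 / ((i:ℝ)+1)) ∧ (ρ s \ closure (W s)).Nonempty ∧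
      ((V ∩ ρ s).Nonempty → W s ⊆ V)) ∧
      ∀ k ≤ i, ∀ i' ≤ i, ∀ σ : Fin (n k) → Finset ℕ, (∀ l, σ l ∈ P) → Function.Injective σ →
        ∀ y : Fin (n k) → X, (∀ l, y l ∈ W (σ l)) → y ∈ G k i' := by
  classical
  let O : Finset ℕ → Set X := fun s => if (V ∩ ρ s).Nonempty then V ∩ ρ s else ρ s
  have hOo : ∀ s ∈ P, IsOpen (O s) := by
    intro s hs
    by_cases h : (V ∩ ρ s).Nonempty
    · simp only [O, if_pos h]; exact hV.inter (hρ s hs).1
    · simp only [O, if_neg h]; exact (hρ s hs).1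
  have hOn : ∀ s ∈ P, (O s).Nonempty := by
    intro s hs
    by_cases h : (V ∩ ρ s).Nonempty
    · simp only [O, if_pos h]; exact h
    · simp only [O, if_neg h]; exact (hρ s hs).2
  have hOρ : ∀ s, O s ⊆ ρ s := by
    intro s
    by_cases h : (V ∩ ρ s).Nonempty
    · simp only [O, if_pos h]; exact inter_subset_right
    · simp only [O, if_neg h]; exact Subset.rfl
  have hOV : ∀ s, (V ∩ ρ s).Nonempty → O s ⊆ V := by
    intro s h
    simp only [O, if_pos h]; exact inter_subset_left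
  obtain ⟨j, hj1, hj2⟩ := exists_inj_choice P (fun s => {j | d j ∈ O s})
    (fun s hs => infinite_idx hdd (hOo s hs) (hOn s hs))
  obtain ⟨r, hr0, hr1, hrG⟩ := exists_radii X n G hGo d hd (max i (P.sup j))
  have key : ∀ᶠ r' in 𝓝[>] (0 : ℝ), ∀ s : P, Metric.closedBall (d (j s)) r' ⊆ O s ∧
      (ρ s \ Metric.closedBall (d (j s)) r').Nonempty := by
    rw [eventually_all]
    rintro ⟨s, hs⟩
    have hmem : d (j s) ∈ O s := hj1 s hs
    obtain ⟨ε, hε, hball⟩ := Metric.isOpen_iff.1 (hOo s hs) _ hmem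
    obtain ⟨q, hq1, hq2, hq3⟩ := (hdd.sdiff_singleton (d (j s))).inter_open_nonempty (ρ s)
      (hρ s hs).1 (hρ s hs).2
    have hq : 0 < dist q (d (j s)) := dist_pos.2 hq3
    filter_upwards [Ioo_mem_nhdsGT hε, Ioo_mem_nhdsGT hq] with r' h1 h2
    refine ⟨?_, q, hq1, ?_⟩
    · intro y hy
      apply hball
      rw [Metric.mem_ball]
      exact lt_of_le_of_lt (Metric.mem_closedBall.1 hy) h1.2
    · rw [Metric.mem_closedBall, not_le]
      exact h2.2
  have hpos : (0 : ℝ) < 1 / ((i : ℝ) + 1) := by positivity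
  obtain ⟨r', hr'1, hr'2, hr'3⟩ := (key.and ((Ioo_mem_nhdsGT hpos : _ ∈ 𝓝[>] (0:ℝ)) |>
    fun h => (Filter.Eventually.and h (Ioo_mem_nhdsGT hr0)))).exists
  refine ⟨fun s => Metric.ball (d (j s)) r', ?_, ?_⟩
  · intro s hs
    obtain ⟨h1, h2⟩ := hr'1 ⟨s, hs⟩
    have hcl : closure (Metric.ball (d (j s)) r') ⊆ Metric.closedBall (d (j s)) r' :=
      Metric.closure_ball_subset_closedBall
    refine ⟨Metric.isOpen_ball, ⟨_, Metric.mem_ball_self hr'3.1⟩,
      hcl.trans (h1.trans (hOρ s)), ?_, ?_, ?_⟩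
    · intro x hx y hy
      rw [Metric.mem_ball] at hx hy
      have h3 := dist_triangle_right x y (d (j s))
      have h4 := hr'2.2
      have h5 : (2 : ℝ) / ((i:ℝ)+1) = 2 * (1 / ((i:ℝ)+1)) := by ring
      rw [h5]
      linarith
    · obtain ⟨q, hq1, hq2⟩ := h2
      exact ⟨q, hq1, fun h => hq2 (hcl h)⟩
    · intro h
      exact Metric.ball_subset_closedBall.trans (h1.trans (hOV s h))
  · intro k hk i' hi' σ hσP hσ y hy
    refine hrG k (hk.trans (le_max_left _ _)) i' (hi'.trans (le_max_left _ _))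
      (fun l => j (σ l)) ?_ ?_ y ?_
    · intro l
      exact (Finset.le_sup (f := j) (hσP l)).trans (le_max_right _ _)
    · intro l l' hll
      exact hσ (hj2 (hσP l) (hσP l') hll)
    · intro l
      exact (Metric.mem_ball.1 (hy l)).trans hr'3.2

/-- A scheme of open sets. -/
structure Sch {X : Type*} [MetricSpace X] (ρ W : ℕ → Finset ℕ → Set X) : Prop where
  zero : ∀ s, ρ 0 s = univ
  opn : ∀ i, ∀ s ∈ (Finset.range i).powerset, IsOpen (ρ i s) ∧ (ρ i s).Nonempty
  cl : ∀ i, ∀ s ∈ (Finset.range i).powerset, closure (W i s) ⊆ ρ i s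
  dia : ∀ i, ∀ s ∈ (Finset.range i).powerset, ∀ x ∈ W i s, ∀ y ∈ W i s,
    dist x y ≤ 2 / ((i:ℝ)+1)
  stf : ∀ i, ∀ s ∈ (Finset.range i).powerset, ρ (i+1) s = ρ i s \ closure (W i s)
  stt : ∀ i, ∀ s ∈ (Finset.range i).powerset, ρ (i+1) (insert i s) = W i s

theorem exists_scheme (X : Type*) [MetricSpace X] [PerfectSpace X] [Nonempty X]
    (n : ℕ → ℕ) (G : ∀ k : ℕ, ℕ → Set (Fin (n k) → X)) (hGo : ∀ k i, IsOpen (G k i))
    (d : ℕ → X) (hdd : Dense (range d)) (hd : ∀ k i (σ : Fin (n k) → ℕ), Function.Injective σ →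
      (fun l => d (σ l)) ∈ G k i) (B : ℕ → Set X) (hB : ∀ i, IsOpen (B i)) :
    ∃ ρ W : ℕ → Finset ℕ → Set X, Sch ρ W ∧
      (∀ i, ∀ s ∈ (Finset.range i).powerset, (B i ∩ ρ i s).Nonempty → W i s ⊆ B i) ∧
      ∀ i, ∀ k ≤ i, ∀ i' ≤ i, ∀ σ : Fin (n k) → Finset ℕ,
        (∀ l, σ l ∈ (Finset.range i).powerset) → Function.Injective σ →
        ∀ y : Fin (n k) → X, (∀ l, y l ∈ W i (σ l)) → y ∈ G k i' := by
  classical
  have step : ∀ (i : ℕ) (ρ : Finset ℕ → Set X), ∃ W : Finset ℕ → Set X,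
      (∀ s ∈ (Finset.range i).powerset, IsOpen (ρ s) ∧ (ρ s).Nonempty) →
      ((∀ s ∈ (Finset.range i).powerset, IsOpen (W s) ∧ (W s).Nonempty ∧ closure (W s) ⊆ ρ s ∧
      (∀ x ∈ W s, ∀ y ∈ W s, dist x y ≤ 2 / ((i:ℝ)+1)) ∧ (ρ s \ closure (W s)).Nonempty ∧
      ((B i ∩ ρ s).Nonempty → W s ⊆ B i)) ∧
      ∀ k ≤ i, ∀ i' ≤ i, ∀ σ : Fin (n k) → Finset ℕ, (∀ l, σ l ∈ (Finset.range i).powerset) →
        Function.Injective σ → ∀ y : Fin (n k) → X, (∀ l, y l ∈ W (σ l)) → y ∈ G k i') := by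
    intro i ρ
    by_cases h : ∀ s ∈ (Finset.range i).powerset, IsOpen (ρ s) ∧ (ρ s).Nonempty
    · obtain ⟨W, hW⟩ := step_exists n G hGo d hdd hd (B i) (hB i) i _ ρ h
      exact ⟨W, fun _ => hW⟩
    · exact ⟨fun _ => univ, fun h' => absurd h' h⟩
  choose F hF using step
  let ρ : ℕ → Finset ℕ → Set X := fun i => Nat.rec (fun _ => univ)
    (fun i r => fun s => if i ∈ s then F i r (s.erase i) else r s \ closure (F i r s)) i
  have ρ_zero : ∀ s, ρ 0 s = univ := fun _ => rfl
  have ρ_succ : ∀ i s, ρ (i+1) s =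
      if i ∈ s then F i (ρ i) (s.erase i) else ρ i s \ closure (F i (ρ i) s) := fun _ _ => rfl
  have hstf : ∀ i, ∀ s ∈ (Finset.range i).powerset,
      ρ (i+1) s = ρ i s \ closure (F i (ρ i) s) := by
    intro i s hs
    have : i ∉ s := fun h => by
      have := Finset.mem_powerset.1 hs h
      simp at this
    rw [ρ_succ, if_neg this]
  have hstt : ∀ i, ∀ s ∈ (Finset.range i).powerset, ρ (i+1) (insert i s) = F i (ρ i) s := by
    intro i s hs
    have : i ∉ s := fun h => by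
      have := Finset.mem_powerset.1 hs h
      simp at this
    rw [ρ_succ, if_pos (Finset.mem_insert_self _ _), Finset.erase_insert this]
  have hinv : ∀ i, ∀ s ∈ (Finset.range i).powerset, IsOpen (ρ i s) ∧ (ρ i s).Nonempty := by
    intro i
    induction i with
    | zero => intro s _; rw [ρ_zero]; exact ⟨isOpen_univ, univ_nonempty⟩
    | succ i ih =>
      obtain ⟨h1, _⟩ := hF i (ρ i) ih
      intro s hs
      by_cases his : i ∈ s
      · have hs' : s.erase i ∈ (Finset.range i).powerset := by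
          rw [Finset.mem_powerset] at hs ⊢
          intro j hj
          have h2 := hs (Finset.mem_of_mem_erase hj)
          have h3 := Finset.ne_of_mem_erase hj
          simp only [Finset.mem_range] at h2 ⊢
          omega
        rw [← Finset.insert_erase his, hstt i _ hs']
        exact ⟨(h1 _ hs').1, (h1 _ hs').2.1⟩
      · have hs' : s ∈ (Finset.range i).powerset := by
          rw [Finset.mem_powerset] at hs ⊢
          intro j hj
          have h2 := hs hj
          have h3 : j ≠ i := fun h => his (h ▸ hj)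
          simp only [Finset.mem_range] at h2 ⊢
          omega
        rw [hstf i _ hs']
        exact ⟨(ih s hs').1.sdiff isClosed_closure, (h1 _ hs').2.2.2.2.1⟩
  refine ⟨ρ, fun i => F i (ρ i), ⟨ρ_zero, hinv, ?_, ?_, hstf, hstt⟩, ?_, ?_⟩
  · intro i s hs
    exact ((hF i (ρ i) (hinv i)).1 s hs).2.2.1
  · intro i s hs
    exact ((hF i (ρ i) (hinv i)).1 s hs).2.2.2.1
  · intro i s hs
    exact ((hF i (ρ i) (hinv i)).1 s hs).2.2.2.2.2
  · intro i
    exact (hF i (ρ i) (hinv i)).2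

end Pool.Agent.W672.CB
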