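import Pool.Agent.W672.CB.Back

set_option autoImplicit false

open Filter Topology Set

namespace Pool.Agent.W672.CB

/-- Prefix `a` below `N`, followed by `b`. -/
def glue (N : ℕ) (a b : ℕ → Bool) : ℕ → Bool := fun m => if m < N then a m else b (m - N)

/-- A centered completely Baire family which is dense in some open set gives a dense one. -/
theorem dense_of_somewhere_dense (A : Set (ℕ → Bool)) (hAi : (interior (closure A)).Nonempty)
    (hAB : ∀ C : Set A, IsClosed C → BaireSpace C)
    (hAc : ∀ F : Finset (ℕ → Bool), (∀ a ∈ F, a ∈ A) → {m | ∀ a ∈ F, a m = true}.Infinite) :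
    ∃ A : Set (ℕ → Bool), Dense A ∧ (∀ C : Set A, IsClosed C → BaireSpace C) ∧
      ∀ F : Finset (ℕ → Bool), (∀ a ∈ F, a ∈ A) → {m | ∀ a ∈ F, a m = true}.Infinite := by
  classical
  obtain ⟨c, hc⟩ := hAi
  obtain ⟨N, hN⟩ := mem_nhds_cantor.1 (isOpen_interior.mem_nhds hc)
  let A' : Set (ℕ → Bool) := {b | glue N c b ∈ A}
  have hcont : Continuous (glue N c) := by
    refine continuous_pi fun m => ?_
    by_cases hm : m < N
    · simp only [glue, if_pos hm]; exact continuous_const
    · simp only [glue, if_neg hm]; exact continuous_apply _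
  let sh : (ℕ → Bool) → (ℕ → Bool) := fun x m => x (m + N)
  have hsh : Continuous sh := continuous_pi fun m => continuous_apply _
  have hshg : ∀ b, sh (glue N c b) = b := by
    intro b
    funext m
    simp only [sh, glue]
    rw [if_neg (by omega)]
    congr 1
    omega
  have hgsh : ∀ x, res c N = res x N → glue N c (sh x) = x := by
    intro x hx
    funext m
    simp only [sh, glue]
    by_cases hm : m < N
    · rw [if_pos hm]; exact res_eq_iff.1 hx m hm
    · rw [if_neg hm]; congr 1; omega
  have hresg : ∀ b, res c N = res (glue N c b) N := by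
    intro b
    rw [res_eq_iff]
    intro j hj
    simp only [glue, if_pos hj]
  -- A' is homeomorphic to a closed subspace of A
  let D : Set A := {x | res c N = res x.1 N}
  have hcl0 : IsClosed {x : ℕ → Bool | res c N = res x N} := by
    have h1 : {x : ℕ → Bool | res c N = res x N} = ⋂ j : Fin N, {x | c j = x j} := by
      ext x
      simp only [mem_iInter]
      constructor
      · intro h j
        exact res_eq_iff.1 h j j.2
      · intro h
        exact res_eq_iff.2 fun j hj => h ⟨j, hj⟩
    rw [h1]
    exact isClosed_iInter fun j => isClosed_eq continuous_const (continuous_apply _)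
  have hD : IsClosed D := hcl0.preimage continuous_subtype_val
  let e : A' ≃ₜ D :=
    { toFun := fun b => ⟨⟨glue N c b.1, b.2⟩, hresg b.1⟩
      invFun := fun x => ⟨sh x.1.1, by
        show glue N c (sh x.1.1) ∈ A
        rw [hgsh x.1.1 x.2]; exact x.1.2⟩
      left_inv := fun b => Subtype.ext (hshg b.1)
      right_inv := fun x => Subtype.ext (Subtype.ext (hgsh x.1.1 x.2))
      continuous_toFun := by
        refine Continuous.subtype_mk (Continuous.subtype_mk ?_ _) _
        exact hcont.comp continuous_subtype_val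
      continuous_invFun := by
        refine Continuous.subtype_mk ?_ _
        exact hsh.comp (continuous_subtype_val.comp continuous_subtype_val) }
  refine ⟨A', ?_, ?_, ?_⟩
  · intro b
    rw [mem_closure_iff_nhds]
    intro U hU
    -- the point `glue N c b` is in the closure of A
    have h1 : glue N c b ∈ closure A := interior_subset (hN _ (hresg b))
    rw [mem_closure_iff_nhds] at h1
    have h2 : {x | res c N = res x N} ∩ sh ⁻¹' U ∈ 𝓝 (glue N c b) := by
      refine inter_mem ?_ ?_
      · rw [hresg b]
        exact mem_nhds_cantor.2 ⟨N, fun b' hb' => hb'⟩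
      · refine hsh.continuousAt.preimage_mem_nhds ?_
        rw [hshg]; exact hU
    obtain ⟨x, ⟨hx1, hx2⟩, hx3⟩ := h1 _ h2
    refine ⟨sh x, hx2, ?_⟩
    show glue N c (sh x) ∈ A
    rw [hgsh x hx1]; exact hx3
  · refine cb_transfer e ?_
    intro C hC
    have h3 : IsClosed (Subtype.val '' C : Set A) := hD.isClosedEmbedding_subtypeVal.isClosedMap C hC
    have h4 := hAB _ h3
    have e2 : (Subtype.val '' C : Set A) ≃ₜ C :=
      (hD.isClosedEmbedding_subtypeVal.isEmbedding.homeomorphImage C).symm
    exact e2.baireSpace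
  · intro F hF
    have h1 := hAc (F.image (glue N c)) (by
      intro a ha
      obtain ⟨b, hb, rfl⟩ := Finset.mem_image.1 ha
      exact hF b hb)
    rw [Set.infinite_iff_exists_gt] at h1 ⊢
    intro M
    obtain ⟨m, hm1, hm2⟩ := h1 (M + N)
    refine ⟨m - N, ?_, by omega⟩
    intro b hb
    have h2 := hm1 (glue N c b) (Finset.mem_image_of_mem _ hb)
    simp only [glue] at h2
    rwa [if_neg (by omega)] at h2

/-- A dense completely Baire set is not meagre. -/
theorem not_meagre_of_dense {Y : Type*} [TopologicalSpace Y] [Nonempty Y] (A : Set Y)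
    (hAd : Dense A) (hAB : ∀ C : Set A, IsClosed C → BaireSpace C) : ¬ IsMeagre A := by
  intro hm
  obtain ⟨G, hGo, hGd, hG⟩ := Pool.Agent.H538R3.CB.exists_open_dense_seq hm
  have := hAB univ isClosed_univ
  have hB : BaireSpace A := (Homeomorph.Set.univ A).baireSpace
  have h1 : Dense (⋂ i, (Subtype.val ⁻¹' G i : Set A)) := by
    refine dense_iInter_of_isOpen ?_ ?_
    · intro i
      exact (hGo i).preimage continuous_subtype_val
    · intro i
      rw [dense_iff_inter_open]
      intro U hU hUne
      obtain ⟨V, hV, rfl⟩ := isOpen_induced_iff.1 hU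
      obtain ⟨x, hx⟩ := hUne
      have h2 : (V ∩ G i).Nonempty := (hGd i).inter_open_nonempty V hV ⟨x.1, hx⟩
      obtain ⟨y, hy1, hy2⟩ := hAd.inter_open_nonempty (V ∩ G i) (hV.inter (hGo i)) h2
      exact ⟨⟨y, hy2⟩, hy1.1, hy1.2⟩
  have hne : Nonempty A := by
    obtain ⟨x, hx⟩ := hAd.nonempty
    exact ⟨⟨x, hx⟩⟩
  obtain ⟨x, hx⟩ := h1.nonempty
  obtain ⟨i, hi⟩ := hG x.1 x.2
  exact hi (mem_iInter.1 hx i)

end Pool.Agent.W672.CB
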